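import Pool.Agent.H477.O.Stm7
import Pool.Graph.R_seed8.H370R2.Local

set_option autoImplicit false

/-!
Project B (helper477), S_B2: Jensen's inequality, small values give few zeros of the derivative.
-/

open Complex Filter Topology Metric Set MeasureTheory
open scoped ComplexConjugate

namespace Pool.Agent.H862.B

open Pool.Agent.H477.O

theorem order_eq {f g : ℂ → ℂ} {s : ℂ} (hf : AnalyticAt ℂ f s) (hg : AnalyticAt ℂ g s)
    (h0 : g s ≠ 0) : analyticOrderNatAt (fun w => f w * g w) s = analyticOrderNatAt f s := by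
  have h1 : analyticOrderAt (f * g) s = analyticOrderAt f s := by
    rw [analyticOrderAt_mul hf hg, hg.analyticOrderAt_eq_zero.2 h0, add_zero]
  show (analyticOrderAt (f * g) s).toNat = (analyticOrderAt f s).toNat
  rw [h1]

theorem dI {X : ℂ → ℂ} (h : Differentiable ℂ X) (j : ℕ) :
    Differentiable ℂ (iteratedDeriv j X) := by
  induction j with
  | zero => simpa using h
  | succ j ih =>
    rw [iteratedDeriv_succ]
    intro z
    exact (ih.analyticAt z).deriv.differentiableAt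

/-- the estimate of Cauchy -/
theorem cauchy_bd {X : ℂ → ℂ} (h : Differentiable ℂ X) (j : ℕ) {w : ℂ} {η C : ℝ} (hη : 0 < η)
    (hC : ∀ z ∈ sphere w η, ‖X z‖ ≤ C) : ‖iteratedDeriv j X w‖ ≤ j.factorial / η ^ j * C := by
  have := Complex.norm_iteratedDeriv_le_of_forall_mem_sphere_norm_le j hη h.diffContOnCl hC
  refine this.trans_eq ?_
  ring

theorem b2 (hP : S_PFAR) : S_B2 := by
  intro a j α e ha hα hα4 he
  obtain ⟨R1, hR1⟩ : ∃ R1 : ℝ, R1 = a + j + 4 + 4 / α := ⟨_, rfl⟩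
  have hj : (0 : ℝ) ≤ j := Nat.cast_nonneg j
  have h4α : 16 ≤ 4 / α := by
    rw [le_div_iff₀ hα]
    linarith
  have hαR : 4 ≤ α * R1 := by
    have h1 : α * R1 = α * (a + j + 4) + 4 := by
      rw [hR1]
      field_simp
    have h2 : 0 ≤ α * (a + j + 4) := by positivity
    linarith
  have hR20 : 20 ≤ R1 := by linarith
  have hr0 : 0 < R1 - α / 2 := by linarith
  obtain ⟨lam, hlam⟩ : ∃ lam : ℝ, lam = Real.log ((R1 - α / 8) / (R1 - α / 2)) := ⟨_, rfl⟩
  have hlam0 : 0 < lam := by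
    rw [hlam]
    refine Real.log_pos ?_
    rw [one_lt_div hr0]
    linarith
  have hel : 0 < e * lam := mul_pos he hlam0
  obtain ⟨η, hη⟩ : ∃ η : ℝ, η = min (α / 16) (e * lam / 4) := ⟨_, rfl⟩
  have hη0 : 0 < η := by
    rw [hη]
    exact lt_min (by linarith) (by linarith)
  have hη1 : η ≤ α / 16 := hη ▸ min_le_left _ _
  have hη2 : η ≤ e * lam / 4 := hη ▸ min_le_right _ _
  refine ⟨2 * R1 + 2, η, by linarith, by linarith, hη0, fun K V hV => ?_⟩
  obtain ⟨K', ℓ₁, hK', hℓ₁, hfar⟩ := hP a K j 1 R1 V (by norm_num) (by linarith) (by linarith)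
  obtain ⟨Q, hQ⟩ : ∃ Q : ℝ, Q = (j.factorial : ℝ) / η ^ j := ⟨_, rfl⟩
  have hQ1 : 1 ≤ Q := by
    rw [hQ, one_le_div (pow_pos hη0 j)]
    have h1 : (1 : ℝ) ≤ j.factorial := by exact_mod_cast Nat.factorial_pos j
    exact (pow_le_one₀ hη0.le (by linarith)).trans h1
  have hQ0 : 0 < Q := by linarith
  have hlQ : 0 ≤ Real.log Q := Real.log_nonneg hQ1
  refine ⟨max (max 3 ℓ₁) (2 * (Real.log Q + K') / (e * lam)),
    (le_max_left _ _).trans (le_max_left _ _), ?_⟩
  intro X M ℓ y hO hℓ hX S hS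
  have hℓ3 : 3 ≤ ℓ := ((le_max_left _ _).trans (le_max_left _ _)).trans hℓ
  have hℓ1 : ℓ₁ ≤ ℓ := ((le_max_right _ _).trans (le_max_left _ _)).trans hℓ
  have hℓ2 : 2 * (Real.log Q + K') ≤ ℓ * (e * lam) := by
    have := (le_max_right _ _).trans hℓ
    rwa [div_le_iff₀ hel] at this
  have hM := hO.hM
  obtain ⟨F, hF⟩ : ∃ F : ℂ → ℂ, F = iteratedDeriv j X := ⟨_, rfl⟩
  have hFd : Differentiable ℂ F := hF ▸ dI hO.diff j
  obtain ⟨c, hcre, hcim⟩ : ∃ c : ℂ, c.re = 1 / 2 + R1 ∧ c.im = y := ⟨⟨1 / 2 + R1, y⟩, rfl, rfl⟩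
  obtain ⟨hFc0, -, hFc1, -⟩ := hfar X M ℓ y hO hℓ1 c (by rw [hcre]; linarith) (by rw [hcre])
    (by rw [hcim, sub_self, abs_zero]; norm_num)
  rw [← hF] at hFc0 hFc1
  obtain ⟨E, hE⟩ : ∃ E : ℂ → ℂ, E = fun w => Complex.exp (-(ℓ : ℂ) * (w - 1 / 2)) := ⟨_, rfl⟩
  have hEn : ∀ w, ‖E w‖ = Real.exp (-ℓ * (w.re - 1 / 2)) := by
    intro w
    rw [hE]
    show ‖Complex.exp (-(ℓ : ℂ) * (w - 1 / 2))‖ = _
    rw [Complex.norm_exp]
    congr 1
    simp
  have hEd : Differentiable ℂ E := by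
    rw [hE]
    fun_prop
  have hE0 : ∀ w, E w ≠ 0 := by
    intro w
    rw [hE]
    exact Complex.exp_ne_zero _
  obtain ⟨b, hb⟩ : ∃ b : ℂ, b = F c * E c := ⟨_, rfl⟩
  have hb0 : b ≠ 0 := hb ▸ mul_ne_zero hFc0 (hE0 c)
  have hbn : M * Real.exp (-K') ≤ ‖b‖ := by
    rw [hb, norm_mul, hEn, hcre]
    calc M * Real.exp (-K') = M * Real.exp (ℓ * (c.re - 1 / 2) - K') *
          Real.exp (-ℓ * (1 / 2 + R1 - 1 / 2)) := by
          rw [mul_assoc, ← Real.exp_add, hcre]
          congr 2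
          ring
      _ ≤ _ := mul_le_mul_of_nonneg_right hFc1 (Real.exp_pos _).le
  have hg : ∀ w, AnalyticAt ℂ (fun w => E w * b⁻¹) w := fun w =>
    (hEd.mul_const b⁻¹).analyticAt w
  have hbound : ∀ w ∈ closedBall c (R1 - 2 * η),
      ‖F w * (E w * b⁻¹)‖ ≤ Q * Real.exp (2 * η * ℓ + K') := by
    intro w hw
    rw [mem_closedBall, dist_eq_norm] at hw
    have hre := (Complex.abs_re_le_norm (w - c)).trans hw
    have him := (Complex.abs_im_le_norm (w - c)).trans hw
    rw [sub_re, hcre, abs_le] at hre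
    rw [sub_im, hcim, abs_le] at him
    have hC : ∀ z ∈ sphere w η, ‖X z‖ ≤ M * Real.exp (ℓ * (w.re - 1 / 2 + 2 * η)) := by
      intro z hz
      rw [mem_sphere, dist_eq_norm] at hz
      have hre' := (Complex.abs_re_le_norm (z - w)).trans_eq hz
      have him' := (Complex.abs_im_le_norm (z - w)).trans_eq hz
      rw [sub_re, abs_le] at hre'
      rw [sub_im, abs_le] at him'
      have h1 := hX z (by linarith) (by linarith) (by rw [abs_le]; constructor <;> linarith)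
      refine h1.trans (mul_le_mul_of_nonneg_left (Real.exp_le_exp.2 ?_) hM.le)
      exact mul_le_mul_of_nonneg_left (by linarith) (by linarith)
    have hFw : ‖F w‖ ≤ Q * (M * Real.exp (ℓ * (w.re - 1 / 2 + 2 * η))) := by
      rw [hF, hQ]
      exact cauchy_bd hO.diff j hη0 hC
    rw [norm_mul, norm_mul, norm_inv, hEn]
    have hbi : ‖b‖⁻¹ ≤ (M * Real.exp (-K'))⁻¹ :=
      inv_anti₀ (mul_pos hM (Real.exp_pos _)) hbn
    calc ‖F w‖ * (Real.exp (-ℓ * (w.re - 1 / 2)) * ‖b‖⁻¹)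
        ≤ (Q * (M * Real.exp (ℓ * (w.re - 1 / 2 + 2 * η)))) *
          (Real.exp (-ℓ * (w.re - 1 / 2)) * (M * Real.exp (-K'))⁻¹) := by
          refine mul_le_mul hFw (mul_le_mul_of_nonneg_left hbi (Real.exp_pos _).le) ?_ ?_
          · positivity
          · positivity
      _ = Q * (Real.exp (ℓ * (w.re - 1 / 2 + 2 * η)) * Real.exp (-ℓ * (w.re - 1 / 2)) *
          Real.exp K') := by
          rw [Real.exp_neg K', mul_inv, inv_inv]
          field_simp
      _ = Q * Real.exp (2 * η * ℓ + K') := by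
          rw [← Real.exp_add, ← Real.exp_add]
          congr 2
          ring
  have hfc : F c * (E c * b⁻¹) = 1 := by
    rw [← mul_assoc, ← hb, mul_inv_cancel₀ hb0]
  have hJ := H370.Loc.jensen_mult (f := fun w => F w * (E w * b⁻¹)) (c := c) (r := R1 - α / 2)
    (R := R1 - 2 * η) (M := Q * Real.exp (2 * η * ℓ + K')) hr0 (by linarith)
    (by
      have h1 : 1 ≤ Real.exp (2 * η * ℓ + K') := Real.one_le_exp (by positivity)
      exact one_le_mul_of_one_le_of_one_le hQ1 h1)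
    (fun w _ => (hFd.analyticAt w).mul (hg w))
    (by
      show F c * (E c * b⁻¹) ≠ 0
      rw [hfc]
      exact one_ne_zero) hbound S
    (by
      intro s hs
      obtain ⟨-, h1, h2, h3⟩ := hS s hs
      rw [mem_closedBall, dist_eq_norm]
      apply abs_le_of_sq_le_sq' _ (by linarith) |>.2
      rw [← Complex.normSq_eq_norm_sq, Complex.normSq_apply, sub_re, sub_im, hcre, hcim]
      rw [abs_le] at h3
      have h5 : (s.im - y) * (s.im - y) ≤ 1 := by nlinarith
      have h6 : (s.re - (1 / 2 + R1)) * (s.re - (1 / 2 + R1)) ≤ (R1 - α) ^ 2 := by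
        have h7 : 0 ≤ R1 - (s.re - 1 / 2) := by linarith
        have h8 : R1 - (s.re - 1 / 2) ≤ R1 - α := by linarith
        nlinarith
      nlinarith)
  have hord : ∑ s ∈ S, (analyticOrderNatAt (iteratedDeriv j X) s : ℝ) =
      ∑ s ∈ S, (H370.mult (fun w => F w * (E w * b⁻¹)) s : ℝ) := by
    refine Finset.sum_congr rfl fun s _ => ?_
    unfold H370.mult
    rw [order_eq (hFd.analyticAt s) (hg s) (mul_ne_zero (hE0 s) (inv_ne_zero hb0)), hF]
  rw [hord]
  refine hJ.trans ?_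
  rw [hfc, norm_one, div_one, Real.log_mul hQ0.ne' (Real.exp_pos _).ne', Real.log_exp]
  have hlr : lam ≤ Real.log ((R1 - 2 * η) / (R1 - α / 2)) := by
    rw [hlam]
    refine Real.log_le_log (div_pos (by linarith) hr0) ?_
    exact div_le_div_of_nonneg_right (by linarith) hr0.le
  have hnum : 0 ≤ Real.log Q + (2 * η * ℓ + K') := by
    have : 0 ≤ 2 * η * ℓ := by positivity
    linarith
  refine (div_le_div_of_nonneg_left hnum hlam0 hlr).trans ?_
  rw [div_le_iff₀ hlam0]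
  have h1 : η * ℓ ≤ e * lam / 4 * ℓ := mul_le_mul_of_nonneg_right hη2 (by linarith)
  nlinarith

end Pool.Agent.H862.B
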